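import Mathlib

/-!
Abstract path lemma for section 4 (unit paths) of the paper proof of the unweighted
theorem on linear hypergraphs.  `step` is a partial injection of a finite type.
-/

namespace Pool.Agent.UQ1

open Finset

section Path

variable {U : Type*}

/-- the `n`-fold step -/
def walk (step : U → Option U) : ℕ → U → Option U
  | 0, u => some u
  | (n + 1), u => (walk step n u).bind step

theorem walk_succ_some {step : U → Option U} {n : ℕ} {s v : U}
    (h : walk step (n + 1) s = some v) :
    ∃ w, walk step n s = some w ∧ step w = some v := by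
  simp only [walk] at h
  exact Option.bind_eq_some_iff.1 h

theorem walk_inj {step : U → Option U}
    (hinj : ∀ a b c, step a = some c → step b = some c → a = b) {s t : U}
    (hs : ∀ a, step a ≠ some s) (ht : ∀ a, step a ≠ some t) :
    ∀ (i j : ℕ) (u : U), walk step i s = some u → walk step j t = some u → i = j ∧ s = t := by
  intro i
  induction i with
  | zero =>
    intro j u h1 h2
    simp only [walk, Option.some.injEq] at h1
    subst h1
    cases j with
    | zero =>
      simp only [walk, Option.some.injEq] at h2
      exact ⟨rfl, h2.symm⟩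
    | succ j =>
      obtain ⟨w, _, hw⟩ := walk_succ_some h2
      exact absurd hw (hs w)
  | succ i ih =>
    intro j u h1 h2
    obtain ⟨w, hw1, hw2⟩ := walk_succ_some h1
    cases j with
    | zero =>
      simp only [walk, Option.some.injEq] at h2
      subst h2
      exact absurd hw2 (ht w)
    | succ j =>
      obtain ⟨w', hw1', hw2'⟩ := walk_succ_some h2
      have hww : w = w' := hinj _ _ _ hw2 hw2'
      subst hww
      obtain ⟨h3, h4⟩ := ih j w hw1 hw1'
      exact ⟨by omega, h4⟩

theorem walk_none_mono {step : U → Option U} {s : U} {n : ℕ} (h : walk step n s = none) :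
    ∀ m, n ≤ m → walk step m s = none := by
  intro m hm
  induction m, hm using Nat.le_induction with
  | base => exact h
  | succ m _ ih => simp [walk, ih]

theorem walk_stops [Finite U] {step : U → Option U}
    (hinj : ∀ a b c, step a = some c → step b = some c → a = b) {s : U}
    (hs : ∀ a, step a ≠ some s) :
    ∃ n u, walk step n s = some u ∧ step u = none := by
  by_contra hcon
  push Not at hcon
  have hsome : ∀ n, ∃ u, walk step n s = some u := by
    intro n
    induction n with
    | zero => exact ⟨s, rfl⟩
    | succ n ih =>
      obtain ⟨u, hu⟩ := ih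
      have h2 := hcon n u hu
      obtain ⟨v, hv⟩ := Option.ne_none_iff_exists'.1 h2
      exact ⟨v, by simp [walk, hu, hv]⟩
  choose f hf using hsome
  have hfinj : Function.Injective f := by
    intro i j hij
    have h1 := hf i
    have h2 := hf j
    rw [hij] at h1
    exact (walk_inj hinj hs hs i j (f j) h1 h2).1
  exact not_injective_infinite_finite f hfinj

variable {R : Type*} [Field R] [LinearOrder R] [IsStrictOrderedRing R]

/-- the positive price increase of the step at `u` -/
def stepGain (step : U → Option U) (p : U → R) (u : U) : R :=
  match step u with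
  | none => 0
  | some v => max (p v - p u) 0

theorem stepGain_nonneg (step : U → Option U) (p : U → R) (u : U) : 0 ≤ stepGain step p u := by
  unfold stepGain
  split
  · exact le_refl _
  · exact le_max_right _ _

/-- telescoping along a walk -/
theorem walk_telescope {step : U → Option U} (p : U → R) (s : U) :
    ∀ (n : ℕ) (u : U), walk step n s = some u →
      p u - p s ≤ ∑ i ∈ Finset.range n, stepGain step p ((walk step i s).getD s) := by
  intro n
  induction n with
  | zero =>
    intro u h
    simp only [walk, Option.some.injEq] at h
    subst h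
    simp
  | succ n ih =>
    intro u h
    obtain ⟨w, hw1, hw2⟩ := walk_succ_some h
    have h1 := ih w hw1
    rw [Finset.sum_range_succ, hw1]
    have h2 : p u - p w ≤ stepGain step p w := by
      unfold stepGain
      rw [hw2]
      exact le_max_left _ _
    simp only [Option.getD_some]
    linarith

/-- The path lemma. -/
theorem path_lemma [Fintype U] (step : U → Option U)
    (hinj : ∀ a b c, step a = some c → step b = some c → a = b)
    (S : Finset U) (hS : ∀ s ∈ S, ∀ a, step a ≠ some s) :
    ∃ fin : U → U,
      (∀ s ∈ S, step (fin s) = none) ∧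
      (∀ s ∈ S, ∀ t ∈ S, fin s = fin t → s = t) ∧
      (∀ p : U → R, ∑ s ∈ S, (p (fin s) - p s) ≤ ∑ u, stepGain step p u) ∧
      (∀ Q : U → Prop, (∀ a b, Q a → step a = some b → Q b) → ∀ s ∈ S, Q s → Q (fin s)) := by
  classical
  have hex : ∀ s, ∃ nu : ℕ × U, s ∈ S → (walk step nu.1 s = some nu.2 ∧ step nu.2 = none) := by
    intro s
    by_cases hs : s ∈ S
    · obtain ⟨n, u, h1, h2⟩ := walk_stops hinj (hS s hs)
      exact ⟨(n, u), fun _ => ⟨h1, h2⟩⟩
    · exact ⟨(0, s), fun h => absurd h hs⟩
  choose f hf using hex
  refine ⟨fun s => (f s).2, fun s hs => (hf s hs).2, ?_, ?_, ?_⟩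
  · intro s hs t ht hst
    have h1 := (hf s hs).1
    have h2 := (hf t ht).1
    have hst' : (f s).2 = (f t).2 := hst
    rw [hst'] at h1
    exact (walk_inj hinj (hS s hs) (hS t ht) _ _ _ h1 h2).2
  · intro p
    have h1 : ∑ s ∈ S, (p (f s).2 - p s) ≤
        ∑ s ∈ S, ∑ i ∈ Finset.range (f s).1, stepGain step p ((walk step i s).getD s) := by
      apply Finset.sum_le_sum
      intro s hs
      exact walk_telescope p s _ _ (hf s hs).1
    refine h1.trans ?_
    rw [Finset.sum_sigma']
    have hsomei : ∀ s ∈ S, ∀ i < (f s).1, ∃ w, walk step i s = some w := by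
      intro s hs i hi
      by_contra hcon
      push Not at hcon
      have h2 : walk step i s = none := by
        cases h : walk step i s with
        | none => rfl
        | some w => exact absurd h (hcon w)
      have h3 := walk_none_mono h2 _ hi.le
      rw [(hf s hs).1] at h3
      exact absurd h3 (by simp)
    have hinjOn : Set.InjOn (fun x : (Σ _ : U, ℕ) => (walk step x.2 x.1).getD x.1)
        (S.sigma fun s => Finset.range (f s).1 : Finset (Σ _ : U, ℕ)) := by
      rintro ⟨s, i⟩ hx ⟨t, j⟩ hy hxy
      simp only [Finset.coe_sigma, Set.mem_sigma_iff, Finset.mem_coe, Finset.mem_range] at hx hy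
      obtain ⟨w, hw⟩ := hsomei s hx.1 i hx.2
      obtain ⟨w', hw'⟩ := hsomei t hy.1 j hy.2
      simp only [hw, hw', Option.getD_some] at hxy
      subst hxy
      obtain ⟨h3, h4⟩ := walk_inj hinj (hS s hx.1) (hS t hy.1) _ _ _ hw hw'
      subst h3
      subst h4
      rfl
    have himg := Finset.sum_image (f := stepGain step p) hinjOn
    rw [← himg]
    apply Finset.sum_le_sum_of_subset_of_nonneg (Finset.subset_univ _)
    intro u _ _
    exact stepGain_nonneg step p u
  · intro Q hQ s hs hQs
    have h1 : ∀ (n : ℕ) (u : U), walk step n s = some u → Q u := by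
      intro n
      induction n with
      | zero =>
        intro u h
        simp only [walk, Option.some.injEq] at h
        subst h
        exact hQs
      | succ n ih =>
        intro u h
        obtain ⟨w, hw1, hw2⟩ := walk_succ_some h
        exact hQ w u (ih w hw1) hw2
    exact h1 _ _ (hf s hs).1

end Path

end Pool.Agent.UQ1
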